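import Pool.Agent.H322.LPN.VF

/-!
# Job LOSS: the volume lost by a body near the simplex
-/

set_option autoImplicit false

open MeasureTheory Set
open scoped ENNReal Matrix Pointwise

namespace Pool.Agent.H322.LPN

open Pool.Agent.H898.SM Pool.Agent.H798.LPN

variable {k m : ℕ} {δ : ℝ}

/-- the volume of the part of `Sx \ L` in the cone over a facet -/
lemma cone_vol {L : Set (Fin (k + 1) → ℝ)} (hL : Good δ L) (_hδ0 : 0 ≤ δ) (hδ2 : δ ≤ 1 / 2) :
    volume.real (R (Fin.succ 0) \ L) ≤ 1 / ((k : ℝ) + 2) * ∫ y in Sx k, gg L y := by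
  have hδ1 : δ < 1 := by linarith
  have hLm : MeasurableSet Lᶜ := hL.closed.measurableSet.compl
  set F : (Fin (k + 1) → ℝ) → ℝ := (Lᶜ).indicator (fun _ => (1 : ℝ)) with hF
  have hFm : Measurable F := measurable_const.indicator hLm
  have hFb : ∀ x, |F x| ≤ 1 := by
    intro x
    simp only [hF, indicator]
    split_ifs <;> simp
  have hF0 : ∀ x, 0 ≤ F x := by
    intro x
    simp only [hF, indicator]
    split_ifs <;> simp
  have hfin : volume (Sx (k + 1)) ≠ ∞ := isCompact_Sx.measure_lt_top.ne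
  have hFi : IntegrableOn F (Sx (k + 1)) := by
    refine Measure.integrableOn_of_bounded (M := 1) hfin hFm.aestronglyMeasurable ?_
    filter_upwards with x
    exact hFb x
  have h0 : volume.real (R (Fin.succ 0) \ L) = ∫ x in R (Fin.succ 0), F x := by
    rw [hF, setIntegral_indicator hLm, ← sdiff_eq]
    simp
  rw [h0, integral_R1 (hFi.mono_set (R_subset _))]
  refine mul_le_mul_of_nonneg_left ?_ (by positivity)
  have hdil := dil_facet_cont (k := k)
  have hswap : ∫ r in (0 : ℝ)..1, r ^ k * ∫ y in Sx k, F (dil r (cns 0 y)) =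
      ∫ y in Sx k, ∫ r in Ioc (0 : ℝ) 1, r ^ k * F (dil r (cns 0 y)) := by
    rw [intervalIntegral.integral_of_le zero_le_one]
    simp only [← integral_const_mul]
    refine integral_integral_swap (f := fun (r : ℝ) (y : Fin k → ℝ) => r ^ k * F (dil r (cns 0 y))) ?_
    have hf1 : IsFiniteMeasure (volume.restrict (Sx k)) := ⟨by simpa using isCompact_Sx.measure_lt_top⟩
    have hb : Integrable (fun _ : ℝ × (Fin k → ℝ) => (1 : ℝ))
        ((volume.restrict (Ioc (0 : ℝ) 1)).prod (volume.restrict (Sx k))) := integrable_const _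
    refine hb.mono' ?_ ?_
    · refine Measurable.aestronglyMeasurable ?_
      exact (measurable_fst.pow_const k).mul (hFm.comp hdil.measurable)
    · have h3 : ∀ᵐ p ∂((volume.restrict (Ioc (0 : ℝ) 1)).prod (volume.restrict (Sx k))),
          p.1 ∈ Ioc (0 : ℝ) 1 := Measure.quasiMeasurePreserving_fst.ae (ae_restrict_mem measurableSet_Ioc)
      filter_upwards [h3] with p hp1
      simp only [Function.uncurry]
      rw [Real.norm_eq_abs, abs_mul]
      have h5 : |p.1 ^ k| ≤ 1 := by
        rw [abs_of_nonneg (pow_nonneg hp1.1.le k)]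
        exact pow_le_one₀ hp1.1.le hp1.2
      have h6 := hFb (dil p.1 (cns 0 p.2))
      calc |p.1 ^ k| * |F (dil p.1 (cns 0 p.2))| ≤ 1 * 1 :=
            mul_le_mul h5 h6 (abs_nonneg _) zero_le_one
        _ = 1 := one_mul 1
  rw [hswap]
  have hgc := gg_continuous hL hδ1
  refine setIntegral_mono_on ?_ (ContinuousOn.integrableOn_Sx hgc.continuousOn) measurableSet_Sx ?_
  · refine Measure.integrableOn_of_bounded (M := 1) isCompact_Sx.measure_lt_top.ne ?_ ?_
    · have h1 : StronglyMeasurable (Function.uncurry fun (y : Fin k → ℝ) (r : ℝ) =>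
          r ^ k * F (dil r (cns 0 y))) := by
        refine Measurable.stronglyMeasurable ?_
        exact (measurable_snd.pow_const k).mul (hFm.comp (hdil.comp continuous_swap).measurable)
      exact (h1.integral_prod_right (ν := volume.restrict (Ioc (0 : ℝ) 1))).aestronglyMeasurable
    · filter_upwards with y
      have h1 := norm_setIntegral_le_of_norm_le_const (μ := volume) (s := Ioc (0 : ℝ) 1)
        (f := fun r => r ^ k * F (dil r (cns 0 y))) (C := 1) (by simp) (fun r hr => by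
          rw [Real.norm_eq_abs, abs_mul]
          have h5 : |r ^ k| ≤ 1 := by
            rw [abs_of_nonneg (pow_nonneg hr.1.le k)]
            exact pow_le_one₀ hr.1.le hr.2
          calc |r ^ k| * |F (dil r (cns 0 y))| ≤ 1 * 1 :=
                mul_le_mul h5 (hFb _) (abs_nonneg _) zero_le_one
            _ = 1 := one_mul 1)
      simpa using h1
  · intro y hy
    have hg0 := gg_nonneg hL hδ1 y
    set a : ℝ := 1 / (1 + gg L y) with ha
    have ha0 : 0 < a := by positivity
    have ha1 : a ≤ 1 := by rw [ha, div_le_one (by positivity)]; linarith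
    have h2 : ∀ r ∈ Ioc (0 : ℝ) 1, r ^ k * F (dil r (cns 0 y)) ≤ (Ioi a).indicator (fun _ => (1 : ℝ)) r := by
      intro r hr
      have h3 : (a < r) ↔ ¬ dil r (cns 0 y) ∈ L := by
        rw [hL.dil_mem hδ1 hr.1.le, not_le, ha, div_lt_iff₀ (by positivity)]
        unfold gg
        ring_nf
      simp only [hF, indicator, mem_Ioi]
      by_cases h4 : dil r (cns 0 y) ∈ L
      · have h5 : ¬ (a < r) := fun h => (h3.1 h) h4
        rw [if_neg h5, if_neg (show ¬ _ ∈ Lᶜ from not_not.2 h4), mul_zero]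
      · have h5 : a < r := h3.2 h4
        rw [if_pos h5, if_pos (show _ ∈ Lᶜ from h4), mul_one]
        exact pow_le_one₀ hr.1.le hr.2
    have hi1 : IntegrableOn (fun r => r ^ k * F (dil r (cns 0 y))) (Ioc (0 : ℝ) 1) := by
      refine Measure.integrableOn_of_bounded (M := 1) (by simp) ?_ ?_
      · refine Measurable.aestronglyMeasurable ?_
        exact (measurable_id.pow_const k).mul (hFm.comp (hdil.comp (Continuous.prodMk_left y)).measurable)
      · filter_upwards [ae_restrict_mem measurableSet_Ioc] with r hr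
        rw [Real.norm_eq_abs, abs_mul]
        have h5 : |r ^ k| ≤ 1 := by
          rw [abs_of_nonneg (pow_nonneg hr.1.le k)]
          exact pow_le_one₀ hr.1.le hr.2
        calc |r ^ k| * |F (dil r (cns 0 y))| ≤ 1 * 1 :=
              mul_le_mul h5 (hFb _) (abs_nonneg _) zero_le_one
          _ = 1 := one_mul 1
    have hi2 : IntegrableOn ((Ioi a).indicator (fun _ => (1 : ℝ))) (Ioc (0 : ℝ) 1) :=
      (integrableOn_const (by simp)).indicator measurableSet_Ioi
    have h4 := setIntegral_mono_on hi1 hi2 measurableSet_Ioc h2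
    refine h4.trans ?_
    rw [setIntegral_indicator measurableSet_Ioi]
    have h5 : Ioc (0 : ℝ) 1 ∩ Ioi a = Ioc a 1 := by
      ext r
      simp only [mem_inter_iff, mem_Ioc, mem_Ioi]
      constructor
      · rintro ⟨⟨_, h6⟩, h7⟩; exact ⟨h7, h6⟩
      · rintro ⟨h6, h7⟩; exact ⟨⟨ha0.trans h6, h7⟩, h6⟩
    rw [h5]
    simp only [setIntegral_const, smul_eq_mul, mul_one, Real.volume_real_Ioc_of_le ha1]
    rw [ha]
    have h6 : 1 - 1 / (1 + gg L y) = gg L y / (1 + gg L y) := by field_simp; ring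
    rw [h6]
    exact div_le_self hg0 (by linarith)

/-- the volume of `Sx \ L` as a sum over the facets -/
lemma vol_sum {L : Set (Fin (k + 1) → ℝ)} (hL : Good δ L) :
    volume.real (Sx (k + 1) \ L) =
      ∑ j : Fin (k + 2), volume.real (R (Fin.succ 0) \ {x : Fin (k + 1) → ℝ | T j (T (Fin.succ 0) x) ∈ L}) := by
  have hLm : MeasurableSet Lᶜ := hL.closed.measurableSet.compl
  set F : (Fin (k + 1) → ℝ) → ℝ := (Lᶜ).indicator (fun _ => (1 : ℝ)) with hF
  have hFi : IntegrableOn F (Sx (k + 1)) :=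
    (ContinuousOn.integrableOn_Sx continuousOn_const).indicator hLm
  have h1 : ∫ x in Sx (k + 1), F x = volume.real (Sx (k + 1) \ L) := by
    rw [hF, setIntegral_indicator hLm, ← sdiff_eq]
    simp
  rw [← h1, integral_R_sum hFi]
  refine Finset.sum_congr rfl fun j _ => ?_
  rw [integral_cone]
  have hGj : Good δ {x : Fin (k + 1) → ℝ | T j (T (Fin.succ 0) x) ∈ L} := (hL.symm j).symm (Fin.succ 0)
  have h2 : fj j F = ({x : Fin (k + 1) → ℝ | T j (T (Fin.succ 0) x) ∈ L}ᶜ).indicator (fun _ => (1 : ℝ)) := by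
    funext x
    simp only [fj, hF, indicator]
    rfl
  rw [h2, setIntegral_indicator hGj.closed.measurableSet.compl, ← sdiff_eq]
  simp

/-! ### the vertices -/

lemma Pi_single_swap (j i l : Fin (k + 1)) :
    (Pi.single i (1 : ℝ) : Fin (k + 1) → ℝ) (Equiv.swap 0 j l) =
      (Pi.single (Equiv.swap 0 j i) (1 : ℝ) : Fin (k + 1) → ℝ) l := by
  simp only [Pi.single_apply]
  have h : (Equiv.swap 0 j l = i) ↔ (l = Equiv.swap 0 j i) := by
    constructor
    · intro h; rw [← h, Equiv.swap_apply_self]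
    · intro h; rw [h, Equiv.swap_apply_self]
  simp only [h]

lemma T_vtx (j i : Fin (k + 1)) : T j (vtx i : Fin k → ℝ) = vtx (Equiv.swap 0 j i) := by
  apply lam_injective
  ext l
  rw [lam_T, lam_vtx, lam_vtx, Function.comp]
  exact Pi_single_swap j i l

lemma cns_vtx (l : Fin (k + 1)) : (cns 0 (vtx l : Fin k → ℝ)) = vtx ((Fin.succ 0 : Fin (k + 2)).succAbove l) := by
  refine Fin.cases ?_ (fun l => ?_) l
  · have h : (Fin.succ 0 : Fin (k + 2)).succAbove 0 = 0 := by
      rw [Fin.succAbove_of_castSucc_lt]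
      · rfl
      · exact Fin.succ_pos (n := k + 1) 0
    rw [h]
    ext i
    refine Fin.cases ?_ (fun i => ?_) i <;> simp [vtx]
  · have h : (Fin.succ 0 : Fin (k + 2)).succAbove l.succ = l.succ.succ := by
      rw [Fin.succAbove_of_le_castSucc]
      rw [Fin.le_def]
      simp
    rw [h]
    ext i
    refine Fin.cases ?_ (fun i => ?_) i
    · simp [vtx]
    · simp only [cns_succ, vtx, Fin.cases_succ, Pi.single_apply, Fin.succ_inj]

/-- the permutation that carries `1` to `j` -/
def tau (j : Fin (k + 2)) : Equiv.Perm (Fin (k + 2)) := (Equiv.swap 0 (Fin.succ 0)).trans (Equiv.swap 0 j)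

lemma tau_one (j : Fin (k + 2)) : tau j (Fin.succ 0) = j := by
  unfold tau
  rw [Equiv.trans_apply, Equiv.swap_apply_right, Equiv.swap_apply_left]

lemma TT_vtx (j i : Fin (k + 2)) :
    T j (T (Fin.succ 0) (vtx i : Fin (k + 1) → ℝ)) = vtx (tau j i) := by
  rw [T_vtx, T_vtx]
  rfl

lemma sum_tau (j : Fin (k + 2)) (Ψ : Fin (k + 2) → ℝ) :
    ∑ l : Fin (k + 1), Ψ (tau j ((Fin.succ 0 : Fin (k + 2)).succAbove l)) =
      ∑ i ∈ Finset.univ.erase j, Ψ i := by
  have h1 := Fin.sum_univ_succAbove (fun a => Ψ (tau j a)) (Fin.succ 0 : Fin (k + 2))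
  rw [Equiv.sum_comp (tau j) Ψ, tau_one] at h1
  have h2 := Finset.add_sum_erase Finset.univ Ψ (Finset.mem_univ j)
  linarith

/-! ### the gauge under the symmetries -/

lemma TT_hom (j : Fin (k + 2)) (c : ℝ) (v : Fin (k + 1) → ℝ) :
    T j (T (Fin.succ 0) (cen (k + 1) + c • v)) - cen (k + 1) =
      c • (T j (T (Fin.succ 0) (cen (k + 1) + v)) - cen (k + 1)) := by
  have e : cen (k + 1) + c • v = (1 - c) • cen (k + 1) + c • (cen (k + 1) + v) := by
    ext i; simp only [Pi.add_apply, Pi.smul_apply, smul_eq_mul]; ring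
  rw [e, T_comb _ (by ring), T_comb _ (by ring), T_cen, T_cen]
  ext i
  simp only [Pi.add_apply, Pi.sub_apply, Pi.smul_apply, smul_eq_mul]; ring

lemma gauge_TT (j : Fin (k + 2)) (L : Set (Fin (k + 1) → ℝ)) (z : Fin (k + 1) → ℝ) :
    gauge (tr {x : Fin (k + 1) → ℝ | T j (T (Fin.succ 0) x) ∈ L}) (z - cen (k + 1)) =
      gauge (tr L) (T j (T (Fin.succ 0) z) - cen (k + 1)) := by
  rw [gauge_def', gauge_def']
  congr 1
  ext r
  refine and_congr_right fun hr => ?_
  simp only [tr, mem_ofPred_eq]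
  have h1 := TT_hom j r⁻¹ (z - cen (k + 1))
  rw [add_sub_cancel] at h1
  rw [← h1, add_sub_cancel]

/-- the values of the excess of the gauge near the vertices of the facet -/
lemma gg_vertex (j : Fin (k + 2)) (L : Set (Fin (k + 1) → ℝ)) (κ : ℝ) (l : Fin (k + 1)) :
    gg {x : Fin (k + 1) → ℝ | T j (T (Fin.succ 0) x) ∈ L} ((1 - κ) • vtx l + κ • cen k) =
      Dg L κ (tau j ((Fin.succ 0 : Fin (k + 2)).succAbove l)) j := by
  unfold gg Dg
  rw [gauge_TT]
  have e : cns 0 ((1 - κ) • vtx l + κ • cen k) = (1 - κ) • cns 0 (vtx l) + κ • cns 0 (cen k) := by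
    ext i
    refine Fin.cases ?_ (fun i => ?_) i <;> simp
  rw [e, T_comb _ (by ring), T_comb _ (by ring), cns_vtx, TT_vtx]
  rfl

/-! ### convex functions on the facet -/

lemma sum_lam_smul_vtx (x : Fin k → ℝ) : ∑ l, lam x l • (vtx l : Fin k → ℝ) = x := by
  ext i
  rw [Finset.sum_apply, Fin.sum_univ_succ]
  simp only [vtx, Fin.cases_zero, Fin.cases_succ, smul_zero, Pi.zero_apply, Pi.smul_apply,
    smul_eq_mul, zero_add, lam, cns_succ, Pi.single_apply, mul_ite, mul_one, mul_zero]
  simp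

lemma sum_vtx : ∑ l, (vtx l : Fin k → ℝ) = ((k : ℝ) + 1) • cen k := by
  ext i
  rw [Finset.sum_apply, Fin.sum_univ_succ]
  simp only [vtx, Fin.cases_zero, Fin.cases_succ, Pi.zero_apply, zero_add, Pi.single_apply, cen,
    Pi.smul_apply, smul_eq_mul]
  simp
  field_simp

lemma pt_bound {g : (Fin k → ℝ) → ℝ} (hg : ConvexOn ℝ (Sx k) g) (hc : g (cen k) = 0) {κ : ℝ}
    (h0 : 0 < κ) (h1 : κ ≤ 1 / 2) {x : Fin k → ℝ} (hx : x ∈ Sx k) :
    g (dil (1 - κ) x) ≤ ∑ l, (lam x l - (1 - V x) / (k + 1)) * g ((1 - κ) • vtx l + κ • cen k) := by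
  have hk : (0 : ℝ) < (k : ℝ) + 1 := by positivity
  set μ := (1 - V x) / ((k : ℝ) + 1) with hμ
  have hV1 := V_le_one hx
  have hμ0 : 0 ≤ μ := by rw [hμ]; exact div_nonneg (by linarith) hk.le
  have hlm : ∀ l, 0 ≤ lam x l - μ := by
    intro l
    have h2 := (V_le_iff (x := x) (c := V x)).1 le_rfl l
    rw [hμ]; linarith
  -- the points
  have hu : ∀ l, (1 - κ) • vtx l + κ • cen k ∈ Sx k := by
    intro l
    refine convex_Sx ?_ cen_mem (by linarith) h0.le (by ring)
    rw [mem_Sx_iff_lam]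
    intro i
    rw [lam_vtx, Pi.single_apply]
    split_ifs <;> norm_num
  set w : Option (Fin (k + 1)) → ℝ := fun o => o.elim ((k + 1) * μ) (fun l => lam x l - μ) with hw
  set P : Option (Fin (k + 1)) → (Fin k → ℝ) :=
    fun o => o.elim (cen k) (fun l => (1 - κ) • vtx l + κ • cen k) with hP
  have h2 := hg.map_sum_le (t := Finset.univ) (w := w) (p := P) (fun o _ => by
      rcases o with _ | l
      · exact mul_nonneg hk.le hμ0
      · exact hlm l) (by
      rw [Fintype.sum_option]
      simp only [hw, Option.elim]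
      rw [Finset.sum_sub_distrib, sum_lam]
      simp only [Finset.sum_const, Finset.card_univ, Fintype.card_fin, nsmul_eq_mul]
      push_cast; ring) (fun o _ => by
      rcases o with _ | l
      · exact cen_mem
      · exact hu l)
  rw [Fintype.sum_option, Fintype.sum_option] at h2
  simp only [hw, hP, Option.elim, hc, smul_eq_mul, mul_zero, zero_add] at h2
  refine le_trans (le_of_eq ?_) h2
  congr 1
  have e1 : ∑ l, (lam x l - μ) • ((1 - κ) • (vtx l : Fin k → ℝ) + κ • cen k) =
      (1 - κ) • (x - (μ * (k + 1)) • cen k) + (κ * (1 - μ * (k + 1))) • cen k := by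
    have e2 : ∀ l : Fin (k + 1), (lam x l - μ) • ((1 - κ) • (vtx l : Fin k → ℝ) + κ • cen k) =
        (1 - κ) • (lam x l • (vtx l : Fin k → ℝ)) - ((1 - κ) * μ) • (vtx l : Fin k → ℝ) +
          (lam x l - μ) • (κ • cen k) := by
      intro l
      ext i
      simp only [Pi.add_apply, Pi.sub_apply, Pi.smul_apply, smul_eq_mul]; ring
    simp only [e2]
    rw [Finset.sum_add_distrib, Finset.sum_sub_distrib, ← Finset.smul_sum, ← Finset.smul_sum,
      ← Finset.sum_smul, sum_lam_smul_vtx, sum_vtx, Finset.sum_sub_distrib, sum_lam]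
    simp only [Finset.sum_const, Finset.card_univ, Fintype.card_fin, nsmul_eq_mul]
    ext i
    simp only [Pi.add_apply, Pi.sub_apply, Pi.smul_apply, smul_eq_mul]
    push_cast; ring
  rw [e1, dil_eq']
  ext i
  simp only [Pi.add_apply, Pi.sub_apply, Pi.smul_apply, smul_eq_mul]
  ring

lemma int_lam (l : Fin (k + 1)) : ∫ x in Sx k, lam x l = vol k / (k + 1) := by
  have h1 : ∀ i : Fin k, ∫ x in Sx k, x i = vol k / (k + 1) := by
    intro i
    have h3 := moment (k := k) (f := fun _ => (1 : ℝ)) continuousOn_const (fun _ _ _ => rfl) i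
    simp only [one_mul] at h3
    exact h3
  refine Fin.cases ?_ (fun i => ?_) l
  · have h2 : ∫ x in Sx k, lam x 0 = ∫ x in Sx k, ((1 : ℝ) - ∑ i, x i) := rfl
    rw [h2, integral_sub (ContinuousOn.integrableOn_Sx continuousOn_const)
      (ContinuousOn.integrableOn_Sx (by fun_prop)), integral_finsetSum _ fun i _ =>
        ContinuousOn.integrableOn_Sx (continuous_apply i).continuousOn]
    simp only [h1, Finset.sum_const, Finset.card_univ, Fintype.card_fin, nsmul_eq_mul]
    have h4 : (∫ _ in Sx k, (1 : ℝ)) = vol k := rfl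
    rw [h4]
    field_simp
    ring
  · exact h1 i

lemma facet_bound {g : (Fin k → ℝ) → ℝ} (hg : ConvexOn ℝ (Sx k) g) (hgc : ContinuousOn g (Sx k))
    (hc : g (cen k) = 0) (hg0 : ∀ x ∈ Sx k, 0 ≤ g x) {κ δ : ℝ} (hg1 : ∀ x ∈ Sx k, g x ≤ 2 * δ)
    (h0 : 0 < κ) (h1 : κ ≤ 1 / 2) :
    ∫ x in Sx k, g x ≤ vol k * ((k : ℝ) / (k + 1) ^ 2 *
      (∑ l, g ((1 - κ) • vtx l + κ • cen k)) + 2 * k * κ * δ) := by
  have hk : (0 : ℝ) < (k : ℝ) + 1 := by positivity
  have hκ : 0 < 1 - κ := by linarith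
  have hκ1 : 1 - κ ≤ 1 := by linarith
  have hv := vol_pos k
  have hδ : 0 ≤ δ := by
    have := (hg0 _ (cen_mem (k := k))).trans (hg1 _ (cen_mem (k := k)))
    linarith
  have hu : ∀ l, 0 ≤ g ((1 - κ) • vtx l + κ • cen k) := by
    intro l
    refine hg0 _ (convex_Sx ?_ cen_mem (by linarith) h0.le (by ring))
    rw [mem_Sx_iff_lam]
    intro i
    rw [lam_vtx, Pi.single_apply]
    split_ifs <;> norm_num
  set B : Set (Fin k → ℝ) := {x | V x ≤ 1 - κ} with hB
  have hBm : MeasurableSet B := measurableSet_le V_measurable measurable_const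
  have hBs : B ⊆ Sx k := by
    intro x hx
    have h2 := (V_le_iff (x := x) (c := 1 - κ)).1 hx
    rw [mem_Sx_iff_lam]
    intro j
    refine le_trans ?_ (h2 j)
    have : 1 - (1 - κ) = κ := by ring
    rw [this]
    positivity
  have hgi : IntegrableOn g (Sx k) := ContinuousOn.integrableOn_Sx hgc
  have hsplit : ∫ x in Sx k, g x = (∫ x in B, g x) + ∫ x in Sx k \ B, g x := by
    rw [← setIntegral_union disjoint_sdiff_right (measurableSet_Sx.diff hBm)
      (hgi.mono_set hBs) (hgi.mono_set sdiff_subset), union_sdiff_cancel hBs]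
  -- volumes
  have hBv : volume.real B = (1 - κ) ^ k * vol k := by
    have h2 := integral_dil (k := k) hκ (fun _ => (1 : ℝ))
    simp only [setIntegral_const, smul_eq_mul, mul_one] at h2
    rw [← vol_eq] at h2
    exact h2
  have hpow : 1 - k * κ ≤ (1 - κ) ^ k := by
    have := one_add_mul_le_pow (a := -κ) (by linarith) k
    rw [← sub_eq_add_neg] at this
    linarith
  have hpow1 : (1 - κ) ^ k ≤ 1 := pow_le_one₀ hκ.le hκ1
  -- the outer part
  have h2 : ∫ x in Sx k \ B, g x ≤ vol k * (2 * k * κ * δ) := by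
    have h3 : ∫ x in Sx k \ B, g x ≤ ∫ _ in Sx k \ B, (2 * δ) := by
      refine setIntegral_mono_on (hgi.mono_set sdiff_subset)
        ((ContinuousOn.integrableOn_Sx continuousOn_const).mono_set sdiff_subset)
        (measurableSet_Sx.diff hBm) fun x hx => hg1 x hx.1
    refine h3.trans ?_
    rw [setIntegral_const, smul_eq_mul, measureReal_sdiff hBs hBm isCompact_Sx.measure_lt_top.ne,
      ← vol_eq, hBv]
    have h4 : vol k - (1 - κ) ^ k * vol k ≤ k * κ * vol k := by nlinarith
    calc (vol k - (1 - κ) ^ k * vol k) * (2 * δ) ≤ (k * κ * vol k) * (2 * δ) :=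
          mul_le_mul_of_nonneg_right h4 (by positivity)
      _ = _ := by ring
  -- the inner part
  have h3 : ∫ x in B, g x ≤ vol k * ((k : ℝ) / (k + 1) ^ 2 *
      (∑ l, g ((1 - κ) • vtx l + κ • cen k))) := by
    rw [hB, integral_dil hκ g]
    have hcd : ContinuousOn (fun x => g (dil (1 - κ) x)) (Sx k) :=
      hgc.comp (continuous_dil _).continuousOn fun x hx => dil_mem hκ.le hκ1 hx
    have hlc : ∀ l : Fin (k + 1), Continuous fun x : Fin k → ℝ => lam x l := fun l =>
      (continuous_apply l).comp continuous_lam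
    have hVc : Continuous (V : (Fin k → ℝ) → ℝ) := V_continuous
    have h4 : ∫ x in Sx k, g (dil (1 - κ) x) ≤ ∫ x in Sx k,
        ∑ l, (lam x l - (1 - V x) / (k + 1)) * g ((1 - κ) • vtx l + κ • cen k) := by
      refine setIntegral_mono_on (ContinuousOn.integrableOn_Sx hcd) ?_ measurableSet_Sx
        fun x hx => pt_bound hg hc h0 h1 hx
      refine ContinuousOn.integrableOn_Sx (Continuous.continuousOn ?_)
      exact continuous_finsetSum _ fun l _ =>
        ((hlc l).sub ((continuous_const.sub hVc).div_const _)).mul continuous_const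
    have h5 : ∫ x in Sx k,
        ∑ l, (lam x l - (1 - V x) / (k + 1)) * g ((1 - κ) • vtx l + κ • cen k) =
        ∑ l, (vol k * ((k : ℝ) / (k + 1) ^ 2)) * g ((1 - κ) • vtx l + κ • cen k) := by
      rw [integral_finsetSum (s := Finset.univ) (f := fun (l : Fin (k + 1)) (x : Fin k → ℝ) =>
          (lam x l - (1 - V x) / (k + 1)) * g ((1 - κ) • vtx l + κ • cen k)) fun l _ =>
        ContinuousOn.integrableOn_Sx (Continuous.continuousOn
        (((hlc l).sub ((continuous_const.sub hVc).div_const _)).mul continuous_const))]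
      refine Finset.sum_congr rfl fun l _ => ?_
      rw [integral_mul_const]
      congr 1
      have i1 : IntegrableOn (fun x : Fin k → ℝ => (1 - V x) / ((k : ℝ) + 1)) (Sx k) :=
        ContinuousOn.integrableOn_Sx ((continuous_const.sub hVc).div_const _).continuousOn
      have i2 : IntegrableOn (fun _ : Fin k → ℝ => (1 : ℝ)) (Sx k) :=
        ContinuousOn.integrableOn_Sx continuousOn_const
      rw [integral_sub (ContinuousOn.integrableOn_Sx (hlc l).continuousOn) i1, int_lam,
        integral_div, integral_sub i2 (ContinuousOn.integrableOn_Sx hVc.continuousOn), V_int]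
      have h6 : (∫ _ in Sx k, (1 : ℝ)) = vol k := rfl
      rw [h6]
      field_simp
      ring
    rw [h5, ← Finset.mul_sum] at h4
    have h6 : 0 ≤ vol k * ((k : ℝ) / (k + 1) ^ 2) * ∑ l, g ((1 - κ) • vtx l + κ • cen k) :=
      mul_nonneg (by positivity) (Finset.sum_nonneg fun l _ => hu l)
    calc (1 - κ) ^ k * ∫ x in Sx k, g (dil (1 - κ) x)
        ≤ (1 - κ) ^ k * (vol k * ((k : ℝ) / (k + 1) ^ 2) * ∑ l, g ((1 - κ) • vtx l + κ • cen k)) :=
          mul_le_mul_of_nonneg_left h4 (by positivity)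
      _ ≤ 1 * (vol k * ((k : ℝ) / (k + 1) ^ 2) * ∑ l, g ((1 - κ) • vtx l + κ • cen k)) :=
          mul_le_mul_of_nonneg_right hpow1 h6
      _ = _ := by ring
  rw [hsplit]
  calc _ ≤ _ := add_le_add h3 h2
    _ = _ := by ring

/-- **Job LOSS.** -/
theorem t_LOSS : S_LOSS := by
  intro k
  have hk1 : (0 : ℝ) < (k : ℝ) + 1 := by positivity
  have hk2 : (0 : ℝ) < (k : ℝ) + 2 := by positivity
  refine ⟨2 * k * (k + 1) + 1, by positivity, ?_⟩
  intro κ δ hκ hκ2 hδ0 hδ2 L hL hfc
  have hδ1 : δ < 1 := by linarith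
  have hv := vol_pos k
  have hv1 := vol_pos (k + 1)
  rw [vol_sum hL]
  have h1 : ∀ j : Fin (k + 2),
      volume.real (R (Fin.succ 0) \ {x : Fin (k + 1) → ℝ | T j (T (Fin.succ 0) x) ∈ L}) ≤
        1 / ((k : ℝ) + 2) * (vol k * ((k : ℝ) / (k + 1) ^ 2 *
          (∑ i ∈ Finset.univ.erase j, Dg L κ i j) + 2 * k * κ * δ)) := by
    intro j
    have hGj : Good δ {x : Fin (k + 1) → ℝ | T j (T (Fin.succ 0) x) ∈ L} :=
      (hL.symm j).symm (Fin.succ 0)
    refine (cone_vol hGj hδ0 hδ2).trans (mul_le_mul_of_nonneg_left ?_ (by positivity))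
    have h2 := facet_bound (gg_convex hGj hδ1) (gg_continuous hGj hδ1).continuousOn
      (gg_cen hGj hδ1 (hfc j)) (fun y _ => gg_nonneg hGj hδ1 y) (fun y hy => gg_le hGj hδ0 hδ2 hy)
      hκ hκ2
    refine h2.trans (le_of_eq ?_)
    simp only [gg_vertex]
    rw [sum_tau j (fun i => Dg L κ i j)]
  refine (Finset.sum_le_sum fun j _ => h1 j).trans ?_
  have hswap : ∑ i : Fin (k + 2), ∑ j ∈ Finset.univ.erase i, Dg L κ i j =
      ∑ j : Fin (k + 2), ∑ i ∈ Finset.univ.erase j, Dg L κ i j := by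
    refine Finset.sum_comm' fun i j => ?_
    simp only [Finset.mem_univ, Finset.mem_erase, and_true, true_and, ne_comm]
  rw [hswap, ← Finset.mul_sum, ← Finset.mul_sum, Finset.sum_add_distrib, ← Finset.mul_sum]
  simp only [Finset.sum_const, Finset.card_univ, Fintype.card_fin, nsmul_eq_mul]
  set S := ∑ j : Fin (k + 2), ∑ i ∈ Finset.univ.erase j, Dg L κ i j with hS
  have hvk : vol k = ((k : ℝ) + 1) * vol (k + 1) := by rw [vol_succ]; field_simp
  rw [hvk]
  have e : 1 / ((k : ℝ) + 2) * ((k + 1) * vol (k + 1) * ((k : ℝ) / (k + 1) ^ 2 * S +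
      ((k + 2 : ℕ) : ℝ) * (2 * k * κ * δ))) =
      vol (k + 1) * ((k : ℝ) / ((k + 1) * (k + 2)) * S + 2 * k * (k + 1) * κ * δ) := by
    push_cast
    field_simp
  rw [e]
  refine mul_le_mul_of_nonneg_left ?_ hv1.le
  have : 0 ≤ κ * δ := by positivity
  nlinarith

end Pool.Agent.H322.LPN
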