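import Pool.Agent.H798.LPN.Stm

/-!
# Job VF: correlation of a symmetric convex function with a convex function that vanishes at the
centroid
-/

set_option autoImplicit false

open MeasureTheory Set
open scoped ENNReal Matrix Pointwise

namespace Pool.Agent.H322.LPN

open Pool.Agent.H898.SM Pool.Agent.H798.LPN

variable {k m : ℕ}

/-! ### Chebyshev's inequality on `[0,1]` -/

lemma cheb {A b w : ℝ → ℝ} (hA : ContinuousOn A (Icc 0 1)) (hb : ContinuousOn b (Icc 0 1))
    (hw : ContinuousOn w (Icc 0 1))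
    (h : ∀ r ∈ Icc (0 : ℝ) 1, ∀ s ∈ Icc (0 : ℝ) 1, 0 ≤ (A r - A s) * (w s * b r - w r * b s)) :
    (∫ r in (0 : ℝ)..1, A r * w r) * (∫ r in (0 : ℝ)..1, b r) ≤
      (∫ r in (0 : ℝ)..1, w r) * ∫ r in (0 : ℝ)..1, A r * b r := by
  have hint : ∀ {f : ℝ → ℝ}, ContinuousOn f (Icc 0 1) → IntervalIntegrable f volume 0 1 :=
    fun hf => hf.intervalIntegrable_of_Icc zero_le_one
  set Iw := ∫ r in (0 : ℝ)..1, w r with hIw
  set Ib := ∫ r in (0 : ℝ)..1, b r with hIb
  set IAw := ∫ r in (0 : ℝ)..1, A r * w r with hIAw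
  set IAb := ∫ r in (0 : ℝ)..1, A r * b r with hIAb
  have h1 : ∀ s ∈ Icc (0 : ℝ) 1, 0 ≤ w s * IAb - b s * IAw - A s * w s * Ib + A s * b s * Iw := by
    intro s hs
    have h2 : ∫ r in (0 : ℝ)..1, (A r - A s) * (w s * b r - w r * b s) =
        w s * IAb - b s * IAw - A s * w s * Ib + A s * b s * Iw := by
      have e : ∀ r, (A r - A s) * (w s * b r - w r * b s) =
          (w s * (A r * b r) - b s * (A r * w r)) - (A s * w s) * b r + (A s * b s) * w r :=
        fun r => by ring
      simp only [e]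
      rw [intervalIntegral.integral_add (hint ?_) (hint ?_), intervalIntegral.integral_sub (hint ?_) (hint ?_),
        intervalIntegral.integral_sub (hint ?_) (hint ?_), intervalIntegral.integral_const_mul,
        intervalIntegral.integral_const_mul, intervalIntegral.integral_const_mul,
        intervalIntegral.integral_const_mul] <;> fun_prop
    rw [← h2]
    exact intervalIntegral.integral_nonneg zero_le_one fun r hr => h r hr s hs
  have h3 : 0 ≤ ∫ s in (0 : ℝ)..1, (w s * IAb - b s * IAw - A s * w s * Ib + A s * b s * Iw) :=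
    intervalIntegral.integral_nonneg zero_le_one h1
  have h4 : ∫ s in (0 : ℝ)..1, (w s * IAb - b s * IAw - A s * w s * Ib + A s * b s * Iw) =
      Iw * IAb - Ib * IAw - IAw * Ib + IAb * Iw := by
    rw [intervalIntegral.integral_add (hint ?_) (hint ?_), intervalIntegral.integral_sub (hint ?_) (hint ?_),
      intervalIntegral.integral_sub (hint ?_) (hint ?_), intervalIntegral.integral_mul_const,
      intervalIntegral.integral_mul_const, intervalIntegral.integral_mul_const,
      intervalIntegral.integral_mul_const] <;> fun_prop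
  rw [h4] at h3
  nlinarith

/-! ### polar coordinates -/

/-- the body seen from the facet `j` -/
def fj {k : ℕ} (j : Fin (k + 2)) (F : (Fin (k + 1) → ℝ) → ℝ) (x : Fin (k + 1) → ℝ) : ℝ :=
  F (T j (T (Fin.succ 0) x))

lemma integral_cone (j : Fin (k + 2)) (F : (Fin (k + 1) → ℝ) → ℝ) :
    ∫ x in R j, F x = ∫ x in R (Fin.succ 0), fj j F x := by
  rw [integral_R j]
  have h3 := integral_R (k := k + 1) (Fin.succ 0) (fun x => F (T j (T (Fin.succ 0) x)))
  simp only [T_T] at h3
  rw [← h3]
  rfl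

lemma T_mem {j : Fin (k + 1)} {x : Fin k → ℝ} (hx : x ∈ Sx k) : T j x ∈ Sx k := T_mem_iff.2 hx

lemma fj_cont {j : Fin (k + 2)} {F : (Fin (k + 1) → ℝ) → ℝ} (hF : ContinuousOn F (Sx (k + 1))) :
    ContinuousOn (fj j F) (Sx (k + 1)) :=
  hF.comp ((continuous_T j).comp (continuous_T _)).continuousOn fun _ hx => T_mem (T_mem hx)

lemma polar_sum {F : (Fin (k + 1) → ℝ) → ℝ} (hF : ContinuousOn F (Sx (k + 1))) :
    ∫ x in Sx (k + 1), F x = ∑ j : Fin (k + 2), 1 / ((k : ℝ) + 2) *
      ∫ r in (0 : ℝ)..1, r ^ k * ∫ y in Sx k, fj j F (dil r (cns 0 y)) := by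
  rw [integral_R_sum (ContinuousOn.integrableOn_Sx hF)]
  refine Finset.sum_congr rfl fun j _ => ?_
  rw [integral_cone, integral_R1]
  exact (ContinuousOn.integrableOn_Sx (fj_cont hF)).mono_set (R_subset _)

/-- the integrals over the shells -/
noncomputable def sh (F : (Fin (k + 1) → ℝ) → ℝ) (r : ℝ) : ℝ := ∫ y in Sx k, F (dil r (cns 0 y))

lemma dil_facet_cont : Continuous fun p : ℝ × (Fin k → ℝ) => dil p.1 (cns 0 p.2) := by
  have h1 : Continuous fun p : ℝ × (Fin k → ℝ) => cns 0 p.2 :=
    Continuous.cns' continuous_const continuous_snd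
  refine continuous_pi fun i => ?_
  exact ((continuous_const.sub continuous_fst).div_const _).add
    (continuous_fst.mul ((continuous_apply i).comp h1))

lemma shell_cont {F : (Fin (k + 1) → ℝ) → ℝ} (hF : ContinuousOn F (Sx (k + 1))) {r : ℝ}
    (h0 : 0 ≤ r) (h1 : r ≤ 1) : ContinuousOn (fun y : Fin k → ℝ => F (dil r (cns 0 y))) (Sx k) :=
  hF.comp (dil_facet_cont.comp (Continuous.prodMk_right r)).continuousOn
    fun _ hy => dil_mem h0 h1 (facet_mem hy)

lemma sh_cont {F : (Fin (k + 1) → ℝ) → ℝ} (hF : ContinuousOn F (Sx (k + 1))) :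
    ContinuousOn (sh F) (Icc 0 1) := by
  obtain ⟨M, hM⟩ := (isCompact_Sx (k := k + 1)).exists_bound_of_continuousOn hF
  refine continuousOn_of_dominated (bound := fun _ => M) ?_ ?_ ?_ ?_
  · intro t ht
    exact (shell_cont hF ht.1 ht.2).aestronglyMeasurable measurableSet_Sx
  · intro t ht
    filter_upwards [ae_restrict_mem measurableSet_Sx] with y hy
    exact hM _ (dil_mem ht.1 ht.2 (facet_mem hy))
  · exact ContinuousOn.integrableOn_Sx continuousOn_const
  · filter_upwards [ae_restrict_mem measurableSet_Sx] with y hy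
    exact hF.comp (dil_facet_cont.comp (Continuous.prodMk_left y)).continuousOn
      fun s hs => dil_mem hs.1 hs.2 (facet_mem hy)

lemma shell_convex {F : (Fin (k + 1) → ℝ) → ℝ} (hF : ConvexOn ℝ (Sx (k + 1)) F) {r : ℝ}
    (h0 : 0 ≤ r) (h1 : r ≤ 1) : ConvexOn ℝ (Sx k) (fun y : Fin k → ℝ => F (dil r (cns 0 y))) := by
  refine ⟨convex_Sx, fun x hx y hy a b ha hb hab => ?_⟩
  have e : dil r (cns 0 (a • x + b • y)) = a • dil r (cns 0 x) + b • dil r (cns 0 y) := by
    ext i
    refine Fin.cases ?_ (fun i => ?_) i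
    · simp only [dil, cns_zero, Pi.add_apply, Pi.smul_apply, smul_eq_mul]
      linear_combination (-((1 - r) / ((((k + 1 : ℕ) : ℝ)) + 1))) * hab
    · simp only [dil, cns_succ, Pi.add_apply, Pi.smul_apply, smul_eq_mul]
      linear_combination (-((1 - r) / ((((k + 1 : ℕ) : ℝ)) + 1))) * hab
  simp only
  rw [e]
  exact hF.2 (dil_mem h0 h1 (facet_mem hx)) (dil_mem h0 h1 (facet_mem hy)) ha hb hab

lemma fj_convex {j : Fin (k + 2)} {F : (Fin (k + 1) → ℝ) → ℝ} (hF : ConvexOn ℝ (Sx (k + 1)) F) :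
    ConvexOn ℝ (Sx (k + 1)) (fj j F) := by
  refine ⟨convex_Sx, fun x hx y hy a b ha hb hab => ?_⟩
  unfold fj
  rw [T_comb _ hab, T_comb _ hab]
  exact hF.2 (T_mem (T_mem hx)) (T_mem (T_mem hy)) ha hb hab

lemma T_cen (j : Fin (k + 1)) : T j (cen k) = cen k := by
  apply lam_injective
  ext l
  rw [lam_T]
  have h : ∀ l : Fin (k + 1), lam (cen k) l = 1 / ((k : ℝ) + 1) := by
    intro l
    refine Fin.cases ?_ (fun i => ?_) l
    · simp only [lam, cns_zero, sum_cen]; ring
    · simp only [lam, cns_succ, cen]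
  simp only [Function.comp, h]

lemma dil_zero (x : Fin k → ℝ) : dil 0 x = cen k := by
  ext i; simp [dil, cen]

lemma dil_between (r s : ℝ) (hs : s ≠ 0) (x : Fin k → ℝ) :
    dil r x = (1 - r / s) • cen k + (r / s) • dil s x := by
  ext i
  simp only [dil, cen, Pi.add_apply, Pi.smul_apply, smul_eq_mul]
  field_simp
  ring

lemma V_facet (r : ℝ) (hr : 0 ≤ r) {y : Fin k → ℝ} (hy : y ∈ Sx k) :
    V (dil r (cns 0 y)) = r := by
  have hk : (0 : ℝ) < ((k + 1 : ℕ) : ℝ) + 1 := by positivity
  refine le_antisymm ?_ ?_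
  · rw [V_le_iff]
    intro j
    rw [lam_dil]
    have h1 := mem_Sx_iff_lam.1 (facet_mem hy) j
    have h2 : 0 ≤ r * lam (cns 0 y) j := mul_nonneg hr h1
    linarith
  · have h1 := le_mx (lam (dil r (cns 0 y))) (Fin.succ 0)
    rw [lam_dil] at h1
    have h2 : lam (cns 0 y) (Fin.succ 0) = 0 := rfl
    rw [h2, mul_zero, add_zero] at h1
    have h3 : 1 - (((k + 1 : ℕ) : ℝ) + 1) * ((1 - r) / (((k + 1 : ℕ) : ℝ) + 1)) = r := by
      field_simp; ring
    rw [h3] at h1
    exact h1

lemma V_T (j : Fin (k + 1)) (x : Fin k → ℝ) : V (T j x) = V x := by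
  unfold V
  rw [lam_T, mx_perm]

/-! ### the values of a symmetric convex function at the centroid -/

lemma cen_le_fc {f : (Fin (k + 1) → ℝ) → ℝ} (hf : ConvexOn ℝ (Sx (k + 1)) f)
    (hs : ∀ j x, x ∈ Sx (k + 1) → f (T j x) = f x) {r : ℝ} (h0 : 0 ≤ r) (h1 : r ≤ 1) :
    f (cen (k + 1)) ≤ f (dil r (cns 0 (cen k))) := by
  have hk : (0 : ℝ) < ((k : ℝ) + 2) := by positivity
  have hmem : ∀ j : Fin (k + 2), dil r (fc j) ∈ Sx (k + 1) := fun j =>
    dil_mem h0 h1 (T_mem (T_mem (facet_mem cen_mem)))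
  have e : cen (k + 1) = ∑ j : Fin (k + 2), (1 / ((k : ℝ) + 2)) • dil r (fc j) := by
    ext i
    have hfc : ∀ j : Fin (k + 2), (fc j : Fin (k + 1) → ℝ) i = if i.succ = j then 0 else 1 / ((k : ℝ) + 1) := by
      intro j
      have := lam_fc (k := k) j i.succ
      simpa [lam] using this
    simp only [Finset.sum_apply, Pi.smul_apply, smul_eq_mul, dil, hfc, cen]
    have h2 : ∑ j : Fin (k + 2), (if i.succ = j then (0 : ℝ) else 1 / ((k : ℝ) + 1)) = 1 := by
      have h3 : ∀ j : Fin (k + 2), (if i.succ = j then (0 : ℝ) else 1 / ((k : ℝ) + 1)) =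
          1 / ((k : ℝ) + 1) - if i.succ = j then 1 / ((k : ℝ) + 1) else 0 := by
        intro j; split_ifs <;> ring
      simp only [h3, Finset.sum_sub_distrib, Finset.sum_ite_eq, Finset.mem_univ, if_true,
        Finset.sum_const, Finset.card_univ, Fintype.card_fin, nsmul_eq_mul]
      push_cast
      field_simp
      ring
    rw [← Finset.mul_sum, Finset.sum_add_distrib, ← Finset.mul_sum, h2]
    simp only [Finset.sum_const, Finset.card_univ, Fintype.card_fin, nsmul_eq_mul]
    push_cast
    field_simp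
    ring
  have h2 := hf.map_sum_le (t := Finset.univ) (w := fun _ : Fin (k + 2) => 1 / ((k : ℝ) + 2))
    (p := fun j => dil r (fc j)) (fun _ _ => by positivity) (by
      simp only [Finset.sum_const, Finset.card_univ, Fintype.card_fin, nsmul_eq_mul]
      push_cast; field_simp) (fun j _ => hmem j)
  rw [← e] at h2
  have h3 : ∀ j : Fin (k + 2), f (dil r (fc j)) = f (dil r (cns 0 (cen k))) := by
    intro j
    unfold fc
    rw [dil_T, hs j _ (dil_mem h0 h1 (T_mem (facet_mem cen_mem))), dil_T,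
      hs _ _ (dil_mem h0 h1 (facet_mem cen_mem))]
  simp only [h3, smul_eq_mul, Finset.sum_const, Finset.card_univ, Fintype.card_fin,
    nsmul_eq_mul] at h2
  refine h2.trans (le_of_eq ?_)
  push_cast
  field_simp


/-- Jensen's inequality on the simplex -/
lemma jensen_Sx {g : (Fin m → ℝ) → ℝ} (hg : ConvexOn ℝ (Sx m) g) (hgc : ContinuousOn g (Sx m)) :
    vol m * g (cen m) ≤ ∫ y in Sx m, g y := by
  have hv := vol_pos m
  have hvr : volume.real (Sx m) = vol m := (vol_eq m).symm
  have h0 : volume (Sx m) ≠ 0 := by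
    intro h
    rw [measureReal_def, h] at hvr
    simp at hvr
    linarith
  have hi : IntegrableOn (fun y : Fin m → ℝ => y) (Sx m) :=
    continuousOn_id.integrableOn_compact isCompact_Sx
  have h1 := hg.map_set_average_le (μ := volume) (f := fun y => y) (t := Sx m) hgc isClosed_Sx h0
    isCompact_Sx.measure_lt_top.ne (ae_restrict_mem measurableSet_Sx) hi
    (ContinuousOn.integrableOn_Sx hgc)
  have h2 : ⨍ y in Sx m, y = cen m := by
    rw [setAverage_eq, hvr]
    ext i
    simp only [Pi.smul_apply, smul_eq_mul]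
    rw [eval_integral (fun i => (ContinuousOn.integrableOn_Sx (continuous_apply i).continuousOn))]
    have h3 := moment (k := m) (f := fun _ => (1 : ℝ)) continuousOn_const (fun _ _ _ => rfl) i
    simp only [one_mul] at h3
    rw [h3]
    have h4 : (∫ _ in Sx m, (1 : ℝ)) = vol m := rfl
    rw [h4]
    unfold cen
    field_simp
  rw [h2, setAverage_eq, hvr, smul_eq_mul] at h1
  calc vol m * g (cen m) ≤ vol m * ((vol m)⁻¹ * ∫ y in Sx m, g y) :=
        mul_le_mul_of_nonneg_left h1 hv.le
    _ = _ := by rw [← mul_assoc, mul_inv_cancel₀ hv.ne', one_mul]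

lemma sh_ge {f : (Fin (k + 1) → ℝ) → ℝ} (hf : ConvexOn ℝ (Sx (k + 1)) f)
    (hfc : ContinuousOn f (Sx (k + 1)))
    (hs : ∀ j x, x ∈ Sx (k + 1) → f (T j x) = f x) {r : ℝ} (h0 : 0 ≤ r) (h1 : r ≤ 1) :
    vol k * f (cen (k + 1)) ≤ sh f r :=
  (mul_le_mul_of_nonneg_left (cen_le_fc hf hs h0 h1) (vol_pos k).le).trans
    (jensen_Sx (shell_convex hf h0 h1) (shell_cont hfc h0 h1))

/-- the shell integrals of a symmetric convex function are nondecreasing -/
lemma sh_mono {f : (Fin (k + 1) → ℝ) → ℝ} (hf : ConvexOn ℝ (Sx (k + 1)) f)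
    (hfc : ContinuousOn f (Sx (k + 1)))
    (hs : ∀ j x, x ∈ Sx (k + 1) → f (T j x) = f x) {s r : ℝ} (h0 : 0 ≤ s) (hsr : s ≤ r) (h1 : r ≤ 1) :
    sh f s ≤ sh f r := by
  rcases eq_or_lt_of_le (h0.trans hsr) with h | h
  · have : s = 0 := by linarith
    subst this; rw [← h]
  · have ha : 0 ≤ 1 - s / r := by rw [sub_nonneg, div_le_one h]; exact hsr
    have hb : 0 ≤ s / r := by positivity
    have h2 : sh f s ≤ (1 - s / r) * (vol k * f (cen (k + 1))) + s / r * sh f r := by
      unfold sh
      have e1 : vol k * f (cen (k + 1)) = ∫ _ in Sx k, f (cen (k + 1)) * 1 := by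
        rw [integral_const_mul]; unfold vol; ring
      rw [e1, ← integral_const_mul, ← integral_const_mul, ← integral_add]
      · refine setIntegral_mono_on (ContinuousOn.integrableOn_Sx (shell_cont hfc h0 (hsr.trans h1)))
          ?_ measurableSet_Sx fun y hy => ?_
        · refine Integrable.add ?_ ?_
          · exact ContinuousOn.integrableOn_Sx continuousOn_const
          · exact (ContinuousOn.integrableOn_Sx (shell_cont hfc h.le h1)).const_mul _
        · have h3 := hf.2 (cen_mem (k := k + 1)) (dil_mem h.le h1 (facet_mem hy)) ha hb (by ring)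
          rw [← dil_between s r h.ne'] at h3
          simpa using h3
      · exact ContinuousOn.integrableOn_Sx continuousOn_const
      · exact (ContinuousOn.integrableOn_Sx (shell_cont hfc h.le h1)).const_mul _
    have h3 := sh_ge hf hfc hs h.le h1
    nlinarith [mul_le_mul_of_nonneg_left h3 ha]

/-- the shell integrals of a convex function which vanishes at the centroid grow linearly -/
lemma sh_star {d : (Fin (k + 1) → ℝ) → ℝ} (hd : ConvexOn ℝ (Sx (k + 1)) d)
    (hdc : ContinuousOn d (Sx (k + 1))) (h00 : d (cen (k + 1)) = 0) {s r : ℝ} (h0 : 0 ≤ s)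
    (hsr : s ≤ r) (h1 : r ≤ 1) : r * sh d s ≤ s * sh d r := by
  rcases eq_or_lt_of_le (h0.trans hsr) with h | h
  · have : s = 0 := by linarith
    subst this; rw [← h]
  · have ha : 0 ≤ 1 - s / r := by rw [sub_nonneg, div_le_one h]; exact hsr
    have hb : 0 ≤ s / r := by positivity
    have h2 : sh d s ≤ s / r * sh d r := by
      unfold sh
      rw [← integral_const_mul]
      refine setIntegral_mono_on (ContinuousOn.integrableOn_Sx (shell_cont hdc h0 (hsr.trans h1)))
        ((ContinuousOn.integrableOn_Sx (shell_cont hdc h.le h1)).const_mul _) measurableSet_Sx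
        fun y hy => ?_
      have h3 := hd.2 (cen_mem (k := k + 1)) (dil_mem h.le h1 (facet_mem hy)) ha hb (by ring)
      rw [← dil_between s r h.ne', h00] at h3
      simpa using h3
    calc r * sh d s ≤ r * (s / r * sh d r) := mul_le_mul_of_nonneg_left h2 h.le
      _ = s * sh d r := by field_simp

lemma V_convex : ConvexOn ℝ univ (V : (Fin k → ℝ) → ℝ) := by
  refine ⟨convex_univ, fun x _ y _ a b ha hb hab => ?_⟩
  unfold V
  refine mx_le fun j => ?_
  rw [lam_comb hab]
  have h1 := mul_le_mul_of_nonneg_left (le_mx (lam x) j) ha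
  have h2 := mul_le_mul_of_nonneg_left (le_mx (lam y) j) hb
  simp only [Pi.add_apply, Pi.smul_apply, smul_eq_mul]
  calc 1 - ((k : ℝ) + 1) * (a * lam x j + b * lam y j) =
      a * (1 - (k + 1) * lam x j) + b * (1 - (k + 1) * lam y j) := by
        linear_combination (-1) * hab
    _ ≤ _ := add_le_add h1 h2

lemma V_continuous : Continuous (V : (Fin k → ℝ) → ℝ) := V_convex.locallyLipschitz.continuous

/-- **Job VF.** -/
theorem t_VF : S_VF := by
  intro m f d hf hfc hfs hd hdc hd0 hdcen
  have hv := vol_pos m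
  have hv1 := vol_pos (m + 1)
  have hm : (0 : ℝ) < (m : ℝ) + 2 := by positivity
  have hVc : ContinuousOn (V : (Fin (m + 1) → ℝ) → ℝ) (Sx (m + 1)) := V_continuous.continuousOn
  have hfsj : ∀ (j : Fin (m + 2)) (x : Fin (m + 1) → ℝ), x ∈ Sx (m + 1) → fj j f x = f x := by
    intro j x hx
    unfold fj
    rw [hfs j _ (T_mem hx), hfs _ _ hx]
  -- the integral of `V f`
  have e1 : ∫ x in Sx (m + 1), V x * f x = ∫ r in (0 : ℝ)..1, sh f r * r ^ (m + 1) := by
    rw [polar_sum (F := fun x => V x * f x) (hVc.mul hfc)]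
    have h1 : ∀ j : Fin (m + 2), ∫ r in (0 : ℝ)..1, r ^ m * ∫ y in Sx m,
        fj j (fun x => V x * f x) (dil r (cns 0 y)) = ∫ r in (0 : ℝ)..1, sh f r * r ^ (m + 1) := by
      intro j
      refine intervalIntegral.integral_congr fun r hr => ?_
      rw [uIcc_of_le zero_le_one] at hr
      have h2 : ∫ y in Sx m, fj j (fun x => V x * f x) (dil r (cns 0 y)) = r * sh f r := by
        unfold sh
        rw [← integral_const_mul]
        refine setIntegral_congr_fun measurableSet_Sx fun y hy => ?_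
        have h3 := hfsj j _ (dil_mem hr.1 hr.2 (facet_mem hy))
        unfold fj at h3 ⊢
        simp only
        rw [h3, V_T, V_T, V_facet r hr.1 hy]
      rw [h2]; ring
    simp only [h1, Finset.sum_const, Finset.card_univ, Fintype.card_fin, nsmul_eq_mul]
    push_cast
    field_simp
  -- the integral of `d`
  set D : Fin (m + 2) → ℝ := fun j => ∫ r in (0 : ℝ)..1, r ^ m * sh (fj j d) r with hD
  have e2 : ∫ x in Sx (m + 1), d x = ∑ j, 1 / ((m : ℝ) + 2) * D j := polar_sum hdc
  -- the integral of `f d`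
  have e3 : ∫ x in Sx (m + 1), f x * d x = ∑ j : Fin (m + 2), 1 / ((m : ℝ) + 2) *
      ∫ r in (0 : ℝ)..1, r ^ m * sh (fj j fun x => f x * d x) r := polar_sum (hfc.mul hdc)
  have h4 : ∀ j : Fin (m + 2), ((m : ℝ) + 2) * ((∫ x in Sx (m + 1), V x * f x) * D j) ≤
      vol m * ∫ r in (0 : ℝ)..1, r ^ m * sh (fj j fun x => f x * d x) r := by
    intro j
    have hdj := fj_convex (j := j) hd
    have hdjc := fj_cont (j := j) hdc
    have hdj0 : fj j d (cen (m + 1)) = 0 := by unfold fj; rw [T_cen, T_cen, hdcen]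
    have hpc : ∀ n : ℕ, ContinuousOn (fun r : ℝ => r ^ n) (Icc 0 1) := fun n => by fun_prop
    -- correlation on the shells
    have h5 : ∀ r ∈ Icc (0 : ℝ) 1, sh f r * sh (fj j d) r ≤
        vol m * sh (fj j fun x => f x * d x) r := by
      intro r hr
      have h6 := corr m (fun y => f (dil r (cns 0 y))) (fun y => fj j d (dil r (cns 0 y)))
        (shell_convex hf hr.1 hr.2) (shell_cont hfc hr.1 hr.2) ?_
        (shell_convex hdj hr.1 hr.2) (shell_cont hdjc hr.1 hr.2)
      · refine h6.trans (le_of_eq ?_)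
        congr 1
        unfold sh
        refine setIntegral_congr_fun measurableSet_Sx fun y hy => ?_
        have h7 := hfsj j _ (dil_mem hr.1 hr.2 (facet_mem hy))
        unfold fj at h7 ⊢
        simp only
        rw [h7]
      · intro i y hy
        have h7 : cns 0 (swp i y) = swp i.succ (cns 0 y) := by
          have := cns_swp 0 y i
          simpa using this
        have h8 : dil r (swp i.succ (cns 0 y)) = T i.succ.succ (dil r (cns 0 y)) := by
          rw [T_succ, ← T_succ i.succ (cns 0 y), dil_T, T_succ]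
        rw [h7, h8, hfs _ _ (dil_mem hr.1 hr.2 (facet_mem hy))]
    have h6 : ∫ r in (0 : ℝ)..1, sh f r * (r ^ m * sh (fj j d) r) ≤
        vol m * ∫ r in (0 : ℝ)..1, r ^ m * sh (fj j fun x => f x * d x) r := by
      rw [← intervalIntegral.integral_const_mul]
      refine intervalIntegral.integral_mono_on zero_le_one ?_ ?_ fun r hr => ?_
      · exact ((sh_cont hfc).mul ((hpc m).mul (sh_cont hdjc))).intervalIntegrable_of_Icc zero_le_one
      · refine (ContinuousOn.mul continuousOn_const ((hpc m).mul (sh_cont ?_))).intervalIntegrable_of_Icc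
          zero_le_one
        exact fj_cont (hfc.mul hdc)
      · have h7 := mul_le_mul_of_nonneg_left (h5 r hr) (pow_nonneg hr.1 m)
        calc _ = r ^ m * (sh f r * sh (fj j d) r) := by ring
          _ ≤ _ := h7
          _ = _ := by ring
    -- Chebyshev
    have h7 := cheb (A := sh f) (b := fun r => r ^ m * sh (fj j d) r) (w := fun r => r ^ (m + 1))
      (sh_cont hfc) ((hpc m).mul (sh_cont hdjc)) (hpc (m + 1)) ?_
    · have h8 : ∫ r in (0 : ℝ)..1, r ^ (m + 1) = 1 / ((m : ℝ) + 2) := by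
        rw [integral_pow]
        push_cast
        norm_num
        ring
      rw [h8, ← e1] at h7
      have h9 := mul_le_mul_of_nonneg_left h7 hm.le
      refine h9.trans ?_
      rw [← mul_assoc, mul_one_div_cancel hm.ne', one_mul]
      exact h6
    · have key : ∀ r ∈ Icc (0 : ℝ) 1, ∀ s ∈ Icc (0 : ℝ) 1, s ≤ r →
          0 ≤ (sh f r - sh f s) * (s ^ (m + 1) * (r ^ m * sh (fj j d) r) -
            r ^ (m + 1) * (s ^ m * sh (fj j d) s)) := by
        intro r hr s hs hsr
        refine mul_nonneg (sub_nonneg.2 (sh_mono hf hfc hfs hs.1 hsr hr.2)) ?_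
        have h8 := sh_star hdj hdjc hdj0 hs.1 hsr hr.2
        have h9 : s ^ (m + 1) * (r ^ m * sh (fj j d) r) - r ^ (m + 1) * (s ^ m * sh (fj j d) s) =
            (s ^ m * r ^ m) * (s * sh (fj j d) r - r * sh (fj j d) s) := by ring
        rw [h9]
        exact mul_nonneg (mul_nonneg (pow_nonneg hs.1 _) (pow_nonneg hr.1 _)) (by linarith)
      intro r hr s hs
      rcases le_total s r with h | h
      · exact key r hr s hs h
      · have := key s hs r hr h
        nlinarith [this]
  rw [e2, e3, vol_succ]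
  have h5 : ((m : ℝ) + 2) * ((∫ x in Sx (m + 1), V x * f x) * ∑ j, D j) ≤
      vol m * ∑ j : Fin (m + 2), ∫ r in (0 : ℝ)..1, r ^ m * sh (fj j fun x => f x * d x) r := by
    rw [Finset.mul_sum, Finset.mul_sum, Finset.mul_sum]
    exact Finset.sum_le_sum fun j _ => h4 j
  rw [← Finset.mul_sum, ← Finset.mul_sum]
  set I := ∫ x in Sx (m + 1), V x * f x with hI
  set S1 := ∑ j, D j with hS1
  set S2 := ∑ j : Fin (m + 2), ∫ r in (0 : ℝ)..1, r ^ m * sh (fj j fun x => f x * d x) r with hS2
  have h6 : ((m : ℝ) + 2) / (m + 1) * (I * (1 / (m + 2) * S1)) =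
      (1 / ((m + 1) * (m + 2))) * ((m + 2) * (I * S1)) := by field_simp
  have h7 : vol m / ((m : ℝ) + 1) * (1 / (m + 2) * S2) = (1 / ((m + 1) * (m + 2))) * (vol m * S2) := by
    field_simp
  rw [h6, h7]
  exact mul_le_mul_of_nonneg_left h5 (by positivity)

end Pool.Agent.H322.LPN
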